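import Mathlib
import Pool.Agent.Lib.lead.RevP3

set_option autoImplicit false

namespace Pool.Agent.Results.MP_91a774_al.Counterexample
open LeadInv LeadPrim

/-- A group `G` with finitely many elements `x i` whose submonoid `P` is right reversible, with
`G = P P⁻¹`, solvable word problem in `G`, and undecidable membership of `P` in `G`. -/
theorem result : ∃ (G : Type) (_ : Group G) (n : ℕ) (x : Fin n → G),
    (∀ a ∈ Submonoid.closure (Set.range x), ∀ b ∈ Submonoid.closure (Set.range x),
      ∃ c ∈ Submonoid.closure (Set.range x), ∃ d ∈ Submonoid.closure (Set.range x),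
        a * c = b * d) ∧
    (∀ g : G, ∃ p ∈ Submonoid.closure (Set.range x), ∃ q ∈ Submonoid.closure (Set.range x),
      g = p * q⁻¹) ∧
    ComputablePred (fun w : List (Fin n × Bool) => FreeGroup.lift x (FreeGroup.mk w) = 1) ∧
    ¬ ComputablePred (fun w : List (Fin n × Bool) =>
      FreeGroup.lift x (FreeGroup.mk w) ∈ Submonoid.closure (Set.range x)) := by
  obtain ⟨A, fA, Tl, fT, top, bot, p, s, fin, a, hu⟩ := exists_gpcp
  obtain ⟨m, ⟨dA⟩⟩ := Finite.exists_equiv_fin A
  let C : Dt Tl A := ⟨m, fun d => dA d, top, bot, fin⟩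
  have hi : Function.Injective C.dg := Fin.val_injective.comp dA.injective
  have hl : ∀ d, C.dg d < C.b + 2 := fun d => (dA d).2.trans (Nat.lt_add_of_pos_right two_pos)
  obtain ⟨n, ⟨e'⟩⟩ := Finite.exists_equiv_fin (X0 Tl A)
  let e := e'.symm
  obtain ⟨F, hF, hF'⟩ := wp_one C e
  let H := Subgroup.closure (Set.range C.val)
  let v : X0 Tl A → H := fun y => ⟨C.val y, Subgroup.subset_closure ⟨y, rfl⟩⟩
  have hr : Set.range (v ∘ e) = Set.range v := e.surjective.range_comp v
  have hv : ∀ u : List (X0 Tl A), (((u.map v).prod : H) : GG C.b) = (u.map C.val).prod := by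
    intro u; induction u <;> simp_all [v]
  have hP : ∀ g : H, g ∈ Submonoid.closure (Set.range v) ↔ InP C.val g.1 := by
    intro g
    constructor
    · intro h
      induction h using Submonoid.closure_induction with
      | mem g h => obtain ⟨y, rfl⟩ := h; exact ⟨[y], by simp [v]⟩
      | one => exact ⟨[], rfl⟩
      | mul g g' _ _ h h' =>
        obtain ⟨u, h⟩ := h
        obtain ⟨u', h'⟩ := h'
        exact ⟨u ++ u', by simp [h, h']⟩
    · rintro ⟨u, h⟩
      rw [show g = (u.map v).prod from Subtype.ext (h.trans (hv u).symm)]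
      exact Submonoid.list_prod_mem _ fun y hy => by
        obtain ⟨y, -, rfl⟩ := List.mem_map.1 hy
        exact Submonoid.subset_closure ⟨y, rfl⟩
  have hev : ∀ w, ((ev (v ∘ e) w : H) : GG C.b) = ev (C.val ∘ e) w := by
    intro w
    induction w with
    | nil => simp
    | cons l w ih => obtain ⟨y, _ | _⟩ := l <;> simp [ih, v]
  have hz : ∀ g : H, Commute g (v .z) := by
    rintro ⟨g, hg⟩
    refine Subtype.ext ?_
    change g * C.val .z = C.val .z * g
    induction hg using Subgroup.closure_induction with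
    | mem g h => obtain ⟨y, rfl⟩ := h; exact val_comm C y
    | one => simp
    | mul g g' _ _ h h' => exact Commute.mul_left h h'
    | inv g _ h => exact Commute.inv_left h
  have hzP : ∀ k, v .z ^ k ∈ Submonoid.closure (Set.range v) := fun k =>
    Submonoid.pow_mem _ (Submonoid.subset_closure (Set.mem_range_self _)) _
  have key : ∀ g : H, ∃ k : ℕ, g * v .z ^ k ∈ Submonoid.closure (Set.range v) := by
    rintro ⟨g, hg⟩
    induction hg using Subgroup.closure_induction'' with
    | mem g h =>
      obtain ⟨y, rfl⟩ := h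
      exact ⟨0, (hP _).2 ⟨[y], by simp⟩⟩
    | inv_mem g h =>
      obtain ⟨y, rfl⟩ := h
      obtain ⟨u, k, h⟩ := val_inv C y
      exact ⟨k, (hP _).2 ⟨u, by simp [v, ← h]⟩⟩
    | one => exact ⟨0, (hP _).2 ⟨[], by simp⟩⟩
    | mul g g' hg hg' h h' =>
      obtain ⟨k, h⟩ := h
      obtain ⟨k', h'⟩ := h'
      refine ⟨k + k', ?_⟩
      have := Submonoid.mul_mem _ h h'
      rwa [((hz ⟨g', hg'⟩).pow_right k).symm.mul_mul_mul_comm, ← pow_add] at this
  refine ⟨H, inferInstance, n, v ∘ e, ?_, ?_, ?_, fun hc => hu ?_⟩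
  · rw [hr]
    intro a _ b _
    obtain ⟨k, hk⟩ := key a⁻¹
    obtain ⟨k', hk'⟩ := key b⁻¹
    refine ⟨_, Submonoid.mul_mem _ hk (hzP k'), _, Submonoid.mul_mem _ hk' (hzP k), ?_⟩
    simp only [← mul_assoc, mul_inv_cancel, one_mul, ← pow_add, add_comm]
  · rw [hr]
    intro g
    obtain ⟨k, hk⟩ := key g
    exact ⟨_, hk, _, hzP k, by simp⟩
  · refine ComputablePred.computable_iff.2 ⟨_, hF.to_comp, funext fun q => ?_⟩
    rw [hF', ← hev, OneMemClass.coe_eq_one]
    rfl
  · obtain ⟨f, hf, hf'⟩ := ComputablePred.computable_iff.1 hc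
    refine ComputablePred.computable_iff.2
      ⟨_, hf.comp (prim_rw0 C e p s a).to_comp, funext fun k => ?_⟩
    rw [← congrFun hf', hr, hP]
    change _ = InP C.val ((ev (v ∘ e) _ : H) : GG C.b)
    rw [hev, ev_rw0, mem_iff C hi hl]

end Pool.Agent.Results.MP_91a774_al.Counterexample
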